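import Pool.Agent.H932R4.CMO.Stmts

set_option autoImplicit false

open Finset

namespace Pool.Agent.H932R4.CMO.T2_574

theorem abs_clip_le {b : ℝ} (hb : 0 ≤ b) (s : ℝ) : |clip b s| ≤ b := by
  unfold clip
  rw [abs_le]
  exact ⟨le_max_left _ _, max_le (by linarith) (min_le_right _ _)⟩

theorem Bd_nonneg (ε : ℝ) (x : ℝ) (hx : 0 ≤ x) : 0 ≤ Bd ε x :=
  div_nonneg (Real.rpow_nonneg hx _) (sq_nonneg _)

theorem one_lt_log {p : ℕ} (hp : 3 ≤ p) : 1 < Real.log p := by
  have h3 : (3 : ℝ) ≤ p := by exact_mod_cast hp
  rw [Real.lt_log_iff_exp_lt (by linarith)]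
  have := Real.exp_one_lt_d9
  linarith

/-- values of a completely multiplicative function -/
theorem f_eq {ε : ℝ} {N₀ : ℕ} {f : ℕ → ℝ} (hf : IsGreedy ε N₀ f) {n : ℕ} (hn : n ≠ 0) :
    f n = ∏ p ∈ n.primeFactors, f p ^ n.factorization p := by
  let F : ℕ →* ℝ := { toFun := f, map_one' := hf.one, map_mul' := hf.mul }
  have hF : ∀ m, F m = f m := fun m => rfl
  have h1 : n = ∏ p ∈ n.primeFactors, p ^ n.factorization p := by
    conv_lhs => rw [← Nat.prod_factorization_pow_eq_self hn]
    rfl
  calc f n = F n := rfl
    _ = F (∏ p ∈ n.primeFactors, p ^ n.factorization p) := by rw [← h1]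
    _ = ∏ p ∈ n.primeFactors, F (p ^ n.factorization p) := map_prod F _ _
    _ = ∏ p ∈ n.primeFactors, f p ^ n.factorization p :=
        Finset.prod_congr rfl fun p _ => by rw [map_pow, hF]

theorem t2 : T2 := by
  classical
  intro ε N₀ f _hε hN hf
  refine ⟨fun n => ?_, fun n => ?_⟩
  · by_cases hn0 : n = 0
    · subst hn0
      rw [hf.zero]
      unfold bw
      rw [if_neg (by simp)]
      simp
    · by_cases hb : ∀ p ∈ n.primeFactors, N₀ ≤ p
      · rw [f_eq hf hn0, bw, if_pos ⟨hn0, hb⟩, Finset.abs_prod]
        have hn : (n : ℝ) = ∏ p ∈ n.primeFactors, (p : ℝ) ^ n.factorization p := by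
          have := Nat.prod_factorization_pow_eq_self hn0
          conv_lhs => rw [← this]
          rw [Finsupp.prod]
          push_cast
          rfl
        have hr : (n : ℝ) ^ (-1 + ε) =
            ∏ p ∈ n.primeFactors, ((p : ℝ) ^ (-1 + ε)) ^ n.factorization p := by
          conv_lhs => rw [hn]
          rw [← Real.finsetProd_rpow]
          · refine Finset.prod_congr rfl fun p _ => ?_
            rw [← Real.rpow_natCast, ← Real.rpow_natCast, ← Real.rpow_mul (by positivity),
              ← Real.rpow_mul (by positivity), mul_comm]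
          · intro p _
            positivity
        rw [hr, Finsupp.prod, Nat.support_factorization, ← Finset.prod_mul_distrib]
        refine Finset.prod_le_prod (fun p _ => abs_nonneg _) fun p hp => ?_
        have hpp := Nat.prime_of_mem_primeFactors hp
        rw [abs_pow, ← mul_pow]
        refine pow_le_pow_left₀ (abs_nonneg _) ?_ _
        rw [hf.big p hpp (hb p hp), abs_neg]
        refine (abs_clip_le (Bd_nonneg ε p (by positivity)) _).trans (le_of_eq ?_)
        unfold Bd
        ring
      · push Not at hb
        obtain ⟨p, hp, hpN⟩ := hb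
        have h0 : f n = 0 := by
          rw [f_eq hf hn0]
          refine Finset.prod_eq_zero hp ?_
          rw [hf.small p (Nat.prime_of_mem_primeFactors hp) hpN]
          refine zero_pow ?_
          exact (Nat.Prime.factorization_pos_of_dvd (Nat.prime_of_mem_primeFactors hp) hn0
            (Nat.dvd_of_mem_primeFactors hp)).ne'
        have h1 : bw N₀ n = 0 := by
          unfold bw
          rw [if_neg]
          rintro ⟨_, h⟩
          exact absurd (h p hp) (by omega)
        rw [h0, h1]
        simp
  · unfold bw
    split_ifs with h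
    · rw [Finsupp.prod, Nat.support_factorization]
      refine ⟨Finset.prod_nonneg fun p _ => by positivity, ?_⟩
      refine Finset.prod_le_one (fun p _ => by positivity) fun p hp => ?_
      have h1 := one_lt_log (hN.trans (h.2 p hp))
      refine pow_le_one₀ (by positivity) ?_
      rw [div_le_one (by positivity)]
      nlinarith
    · exact ⟨le_rfl, zero_le_one⟩

end Pool.Agent.H932R4.CMO.T2_574
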